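import Pool.Agent.helper16.LW.Spec

set_option autoImplicit false

open Complex MeasureTheory

namespace Pool.Agent.LW

open Pool.Agent.ZD Pool.Agent.helper84.DM Pool.Agent.helper78.ED Pool.Agent.DH

theorem FEJ_sum {M : Type} [AddCommGroup M] (g : ℤ → M) (J : ℕ) :
    ∑ j ∈ IJ (J + 1), g j = g 0 + ∑ k ∈ Finset.range J, (g ((k : ℤ) + 1) + g (-((k : ℤ) + 1))) := by
  induction J with
  | zero =>
    have : IJ (0 + 1) = {0} := by
      ext j
      simp only [IJ, Finset.mem_Ioo, Finset.mem_singleton]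
      push_cast
      constructor
      · intro h; omega
      · intro h; omega
    rw [this]
    simp
  | succ J ih =>
    have h1 : IJ (J + 1 + 1) = insert ((J : ℤ) + 1) (insert (-((J : ℤ) + 1)) (IJ (J + 1))) := by
      ext j
      simp only [IJ, Finset.mem_Ioo, Finset.mem_insert]
      push_cast
      constructor
      · intro h; omega
      · intro h; omega
    have h2 : (-((J : ℤ) + 1)) ∉ IJ (J + 1) := by
      simp only [IJ, Finset.mem_Ioo]
      push_cast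
      omega
    have h3 : ((J : ℤ) + 1) ∉ insert (-((J : ℤ) + 1)) (IJ (J + 1)) := by
      simp only [IJ, Finset.mem_Ioo, Finset.mem_insert]
      push_cast
      omega
    rw [h1, Finset.sum_insert h3, Finset.sum_insert h2, ih, Finset.sum_range_succ]
    abel

theorem FEJ_w (J : ℕ) (j : ℤ) (hj : j ∈ IJ J) : 0 ≤ wj J j ∧ wj J j ≤ 1 := by
  simp only [IJ, Finset.mem_Ioo] at hj
  have hJ : (0 : ℝ) < J := by
    have : (0 : ℤ) < J := by omega
    exact_mod_cast this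
  have hj' : |(j : ℝ)| ≤ J := by
    have : |j| ≤ (J : ℤ) := by
      rw [abs_le]; omega
    have h2 : ((|j| : ℤ) : ℝ) ≤ ((J : ℤ) : ℝ) := by exact_mod_cast this
    simpa using h2
  unfold wj
  constructor
  · have : |(j : ℝ)| / J ≤ 1 := by
      rw [div_le_one hJ]; exact hj'
    linarith
  · have : 0 ≤ |(j : ℝ)| / J := by positivity
    linarith

theorem FEJ_sq (x : ℝ) (J : ℕ) :
    (∑ s ∈ Finset.range J, Real.cos (s * x)) ^ 2 + (∑ s ∈ Finset.range J, Real.sin (s * x)) ^ 2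
      = J + 2 * ∑ k ∈ Finset.range J, ((J : ℝ) - k - 1) * Real.cos (((k : ℝ) + 1) * x) := by
  induction J with
  | zero => simp
  | succ J ih =>
    have h1 : (∑ s ∈ Finset.range J, Real.cos (s * x)) * Real.cos (J * x)
        + (∑ s ∈ Finset.range J, Real.sin (s * x)) * Real.sin (J * x)
        = ∑ k ∈ Finset.range J, Real.cos (((k : ℝ) + 1) * x) := by
      rw [Finset.sum_mul, Finset.sum_mul, ← Finset.sum_add_distrib]
      rw [← Finset.sum_range_reflect (fun k : ℕ => Real.cos (((k : ℝ) + 1) * x)) J]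
      apply Finset.sum_congr rfl
      intro s hs
      rw [Finset.mem_range] at hs
      rw [← Real.cos_sub]
      have : ((J - 1 - s : ℕ) : ℝ) = (J : ℝ) - 1 - s := by
        rw [Nat.cast_sub (by omega), Nat.cast_sub (by omega)]; simp
      rw [this, ← Real.cos_neg]
      congr 1
      ring
    have h2 : ∑ k ∈ Finset.range (J + 1), (((J + 1 : ℕ) : ℝ) - k - 1) * Real.cos (((k : ℝ) + 1) * x)
        = ∑ k ∈ Finset.range J, ((J : ℝ) - k - 1) * Real.cos (((k : ℝ) + 1) * x)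
          + ∑ k ∈ Finset.range J, Real.cos (((k : ℝ) + 1) * x) := by
      rw [Finset.sum_range_succ, ← Finset.sum_add_distrib]
      have h0 : (((J + 1 : ℕ) : ℝ) - J - 1) * Real.cos (((J : ℝ) + 1) * x) = 0 := by
        push_cast; ring
      rw [h0, add_zero]
      apply Finset.sum_congr rfl
      intro k hk
      push_cast
      ring
    rw [h2, Finset.sum_range_succ, Finset.sum_range_succ]
    push_cast
    have h3 := Real.sin_sq_add_cos_sq (J * x)
    nlinarith [h1, ih, h3]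

theorem FEJ_main (x : ℝ) (J : ℕ) (hJ : 1 ≤ J) :
    (J : ℝ) * Fej J x
      = (∑ s ∈ Finset.range J, Real.cos (s * x)) ^ 2 + (∑ s ∈ Finset.range J, Real.sin (s * x)) ^ 2 := by
  rw [FEJ_sq]
  obtain ⟨K, rfl⟩ : ∃ K, J = K + 1 := ⟨J - 1, by omega⟩
  have hpos : (0 : ℝ) < ((K + 1 : ℕ) : ℝ) := by positivity
  unfold Fej
  rw [Finset.mul_sum, FEJ_sum, Finset.sum_range_succ]
  have h0 : (((K + 1 : ℕ) : ℝ) - K - 1) * Real.cos (((K : ℝ) + 1) * x) = 0 := by
    push_cast; ring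
  rw [h0, add_zero, Finset.mul_sum]
  have h1 : ((K + 1 : ℕ) : ℝ) * (wj (K + 1) 0 * Real.cos (((0 : ℤ) : ℝ) * x)) = ((K + 1 : ℕ) : ℝ) := by
    simp [wj]
  rw [h1]
  congr 1
  apply Finset.sum_congr rfl
  intro k hk
  have ha : |(((k : ℤ) + 1 : ℤ) : ℝ)| = (k : ℝ) + 1 := by
    push_cast
    exact abs_of_nonneg (by positivity)
  have hb : |((-((k : ℤ) + 1) : ℤ) : ℝ)| = (k : ℝ) + 1 := by
    push_cast
    rw [abs_neg]
    exact abs_of_nonneg (by positivity)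
  have hc : Real.cos (((-((k : ℤ) + 1) : ℤ) : ℝ) * x) = Real.cos (((k : ℝ) + 1) * x) := by
    rw [← Real.cos_neg]
    congr 1
    push_cast
    ring
  have hd : Real.cos ((((k : ℤ) + 1 : ℤ) : ℝ) * x) = Real.cos (((k : ℝ) + 1) * x) := by
    congr 1
    push_cast
    ring
  unfold wj
  rw [ha, hb, hc, hd]
  field_simp
  push_cast
  ring

theorem FEJ_zero (J : ℕ) (hJ : 1 ≤ J) : Fej J 0 = J := by
  have h := FEJ_main 0 J hJ
  simp at h
  have hpos : (0 : ℝ) < (J : ℝ) := by exact_mod_cast hJ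
  have h2 : (J : ℝ) * Fej J 0 = J * J := by rw [h]; ring
  exact mul_left_cancel₀ (ne_of_gt hpos) h2

theorem FEJ_nonneg (J : ℕ) (x : ℝ) (hJ : 1 ≤ J) : 0 ≤ Fej J x := by
  have h := FEJ_main x J hJ
  have hpos : (0 : ℝ) < (J : ℝ) := by exact_mod_cast hJ
  have h2 : 0 ≤ (J : ℝ) * Fej J x := by rw [h]; positivity
  by_contra hc
  push Not at hc
  nlinarith

theorem FEJ_le (J : ℕ) (x : ℝ) (hJ : 1 ≤ J) : Fej J x ≤ J := by
  rw [← FEJ_zero J hJ]
  unfold Fej
  apply Finset.sum_le_sum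
  intro j hj
  have hw := FEJ_w J j hj
  apply mul_le_mul_of_nonneg_left _ hw.1
  simp only [mul_zero, Real.cos_zero]
  exact Real.cos_le_one _

theorem FEJ_exp (J : ℕ) (x : ℝ) (hJ : 1 ≤ J) :
    ∑ j ∈ IJ J, ((wj J j : ℝ) : ℂ) * Complex.exp ((((j : ℝ) * x : ℝ) : ℂ) * I) = ((Fej J x : ℝ) : ℂ) := by
  obtain ⟨K, rfl⟩ : ∃ K, J = K + 1 := ⟨J - 1, by omega⟩
  have hs : ∑ j ∈ IJ (K + 1), wj (K + 1) j * Real.sin (j * x) = 0 := by
    rw [FEJ_sum]
    have h0 : wj (K + 1) 0 * Real.sin (((0 : ℤ) : ℝ) * x) = 0 := by simp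
    rw [h0, zero_add]
    apply Finset.sum_eq_zero
    intro k hk
    have ha : ((-((k : ℤ) + 1) : ℤ) : ℝ) = -((((k : ℤ) + 1 : ℤ)) : ℝ) := by push_cast; ring
    have hw : wj (K + 1) (-((k : ℤ) + 1)) = wj (K + 1) ((k : ℤ) + 1) := by
      unfold wj
      rw [ha, abs_neg]
    rw [hw, ha, neg_mul, Real.sin_neg]
    ring
  have h1 : ∀ j ∈ IJ (K + 1), ((wj (K + 1) j : ℝ) : ℂ) * Complex.exp ((((j : ℝ) * x : ℝ) : ℂ) * I)
      = ((wj (K + 1) j * Real.cos (j * x) : ℝ) : ℂ) + ((wj (K + 1) j * Real.sin (j * x) : ℝ) : ℂ) * I := by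
    intro j hj
    rw [Complex.exp_mul_I]
    push_cast
    ring
  rw [Finset.sum_congr rfl h1, Finset.sum_add_distrib, ← Finset.sum_mul]
  rw [← Complex.ofReal_sum, ← Complex.ofReal_sum, hs]
  unfold Fej
  simp

theorem FEJ_sin (y : ℝ) (h0 : 0 ≤ y) (h1 : y ≤ 57 / 20) : y / 50 ≤ Real.sin y := by
  have hp1 := Real.pi_gt_d2
  have hp2 := Real.pi_lt_d2
  have hpos : 0 < Real.pi := Real.pi_pos
  have h2pi : (3 : ℝ) / 5 ≤ 2 / Real.pi := by
    rw [le_div_iff₀ hpos]; linarith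
  by_cases h : y ≤ Real.pi / 2
  · have := Real.mul_le_sin h0 h
    nlinarith
  · push Not at h
    have h3 := Real.mul_le_sin (x := Real.pi - y) (by linarith) (by linarith)
    rw [Real.sin_pi_sub] at h3
    have h4 : (0.29 : ℝ) ≤ Real.pi - y := by linarith
    nlinarith

theorem FEJ_geo (J : ℕ) (x : ℝ) :
    ((∑ s ∈ Finset.range J, Real.cos (s * x)) ^ 2 + (∑ s ∈ Finset.range J, Real.sin (s * x)) ^ 2)
      * Real.sin (x / 2) ^ 2 ≤ 1 := by
  set z : ℂ := Complex.exp ((x : ℂ) * I) with hz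
  have hzn : ‖z‖ = 1 := Complex.norm_exp_ofReal_mul_I x
  have h1 : ∑ s ∈ Finset.range J, z ^ s
      = ((∑ s ∈ Finset.range J, Real.cos (s * x) : ℝ) : ℂ)
        + ((∑ s ∈ Finset.range J, Real.sin (s * x) : ℝ) : ℂ) * I := by
    push_cast
    rw [Finset.sum_mul, ← Finset.sum_add_distrib]
    apply Finset.sum_congr rfl
    intro s hs
    rw [hz, ← Complex.exp_nat_mul, ← Complex.exp_mul_I]
    congr 1
    ring
  have h2 : ‖∑ s ∈ Finset.range J, z ^ s‖ ^ 2
      = (∑ s ∈ Finset.range J, Real.cos (s * x)) ^ 2 + (∑ s ∈ Finset.range J, Real.sin (s * x)) ^ 2 := by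
    rw [h1, ← Complex.normSq_eq_norm_sq, Complex.normSq_add_mul_I]
  have h3 : ‖z - 1‖ ^ 2 = 4 * Real.sin (x / 2) ^ 2 := by
    have : z - 1 = ((Real.cos x - 1 : ℝ) : ℂ) + ((Real.sin x : ℝ) : ℂ) * I := by
      rw [hz, Complex.exp_mul_I]
      push_cast
      ring
    rw [this, ← Complex.normSq_eq_norm_sq, Complex.normSq_add_mul_I]
    have h4 := Real.sin_sq_add_cos_sq x
    have h5 : Real.cos x = 1 - 2 * Real.sin (x / 2) ^ 2 := by
      have h6 := Real.cos_two_mul (x / 2)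
      have h7 := Real.sin_sq_add_cos_sq (x / 2)
      have h8 : 2 * (x / 2) = x := by ring
      rw [h8] at h6
      linarith
    nlinarith
  have h4 : ‖∑ s ∈ Finset.range J, z ^ s‖ * ‖z - 1‖ ≤ 2 := by
    rw [← norm_mul, geom_sum_mul]
    calc ‖z ^ J - 1‖ ≤ ‖z ^ J‖ + ‖(1 : ℂ)‖ := norm_sub_le _ _
      _ = 2 := by rw [norm_pow, hzn]; norm_num
  rw [← h2]
  have h5 : (‖∑ s ∈ Finset.range J, z ^ s‖ * ‖z - 1‖) ^ 2 ≤ 4 := by
    have h0 : 0 ≤ ‖∑ s ∈ Finset.range J, z ^ s‖ * ‖z - 1‖ := by positivity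
    nlinarith
  rw [mul_pow, h3] at h5
  linarith

theorem FEJ_bd (J : ℕ) (x : ℝ) (hJ : 1 ≤ J) (hx : |x| ≤ 57 / 10) : Fej J x ≤ 10001 * J * kap (J * x) := by
  have hpos : (0 : ℝ) < (J : ℝ) := by exact_mod_cast hJ
  have hle := FEJ_le J x hJ
  have hnn := FEJ_nonneg J x hJ
  have hg := FEJ_geo J x
  rw [← FEJ_main x J hJ] at hg
  have hs : (|x| / 2) / 50 ≤ Real.sin (|x| / 2) := FEJ_sin _ (by positivity) (by linarith)
  have hs2 : (x / 100) ^ 2 ≤ Real.sin (x / 2) ^ 2 := by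
    have h1 : Real.sin (|x| / 2) ^ 2 = Real.sin (x / 2) ^ 2 := by
      rcases abs_cases x with ⟨h, _⟩ | ⟨h, _⟩
      · rw [h]
      · rw [h, neg_div, Real.sin_neg, neg_sq]
    rw [← h1]
    have h2 : (x / 100) ^ 2 = (|x| / 2 / 50) ^ 2 := by
      have : |x| ^ 2 = x ^ 2 := sq_abs x
      nlinarith
    rw [h2]
    exact pow_le_pow_left₀ (by positivity) hs 2
  have h3 : (J : ℝ) * Fej J x * (x / 100) ^ 2 ≤ 1 := by
    refine le_trans (mul_le_mul_of_nonneg_left hs2 (by positivity)) hg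
  unfold kap
  rw [mul_one_div, le_div_iff₀ (by positivity)]
  nlinarith

theorem FEJ : FEJ_stmt := by
  refine ⟨fun J x hJ => ⟨FEJ_exp J x hJ, FEJ_nonneg J x hJ, FEJ_le J x hJ, ?_⟩, FEJ_w, 10001, by norm_num,
    fun J x hJ hx => FEJ_bd J x hJ hx⟩
  unfold Fej
  apply Finset.sum_congr rfl
  intro j hj
  rw [mul_neg, Real.cos_neg]

end Pool.Agent.LW
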